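import Pool.Agent.H2.GB.Fin

/-!
# `gap(G_{=d})` and `gap(G_{≥d})` are asymptotically `1/√d`, for all `d`
-/

namespace Pool.Agent.Results.MP_2920eb_co.AsymptoticGap

open Pool.Agent.H17

theorem result :
    (∀ n d : ℕ, PlaneExists n ∨ IsPrimePow n → (√(n : ℝ) + 1) ^ 2 ≤ d →
      √(n : ℝ) / d ≤ gapRegular d) ∧
    (∀ A : ℝ, 0 < A → ∃ N : ℕ, ∀ d : ℕ, N ≤ d →
      (1 - (Real.log d) ^ (-A)) / √(d : ℝ) ≤ gapRegular d ∧ gapRegular d ≤ gapMinDegree d ∧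
        gapMinDegree d ≤ √((d : ℝ) - 1) / d) := by
  refine ⟨fun n d h hd => ?_, fun A hA => Pool.Agent.H2.GB.final A hA⟩
  rcases h with h | h
  · exact Pool.Agent.H64.EQ.explicit_plane n d h hd
  · exact Pool.Agent.H64.EQ.explicit n d h hd

end Pool.Agent.Results.MP_2920eb_co.AsymptoticGap
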