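import Mathlib
import Pool.Agent.H2.RG.Res

/-!
# The exact value of `gap(G_{≥d})` for all `d` with a plane of order `d` and none of order `d - 1`

Let `d ≥ 3` be such that there is no projective plane of order `d - 1`.  Then
`gap(G_{≥d}) ≤ √d / (d + 1)`, with equality if a plane of order `d` exists, and the graphs of
`G_{≥d}` with gap `√d / (d + 1)` are exactly the incidence graphs of planes of order `d`.
In particular `gap(G_{≥7}) = √7 / 8` and (no plane of order 10) `gap(G_{≥11}) = √11 / 12`.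
-/

namespace Pool.Agent.Results.MP_2920eb_co.ExactMinDegreeAll

open Pool.Agent.H17

theorem result :
    (∀ d : ℕ, d = 7 ∨ 11 ≤ d → ∀ (V : Type) [Fintype V] (G : SimpleGraph V), InMinDegree d G →
      (√(d : ℝ) / (d + 1) ≤ gap G ↔
        IsPlaneIncidenceGraph (d - 1) G ∨ IsPlaneIncidenceGraph d G)) ∧
    (∀ d : ℕ, 3 ≤ d → ¬ PlaneExists (d - 1) →
      gapMinDegree d ≤ √(d : ℝ) / (d + 1) ∧
      (PlaneExists d → gapMinDegree d = √(d : ℝ) / (d + 1)) ∧
      ∀ (V : Type) [Fintype V] (G : SimpleGraph V), InMinDegree d G →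
        (gap G = √(d : ℝ) / (d + 1) ↔ IsPlaneIncidenceGraph d G)) ∧
    gapMinDegree 7 = √7 / 8 ∧
    (¬ PlaneExists 10 → gapMinDegree 11 = √11 / 12) ∧
    {d : ℕ | 3 ≤ d ∧ ¬ PlaneExists (d - 1) ∧ PlaneExists d}.Infinite :=
  Pool.Agent.H2.RG.final

end Pool.Agent.Results.MP_2920eb_co.ExactMinDegreeAll
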