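import Mathlib
import Pool.Agent.H17.RegularUpper
import Pool.Agent.H17.Example33
import Pool.Agent.H17.NonExistence

/-!
# Exact value of `gap(G_{=7})` and failure of the design conjecture for `d = 7`

There is no projective plane of order `6`, so `d = 7` is the smallest case left open.
We prove `gap(G_{=7}) = √5 / 7`, that the supremum is attained, and that every connected
`7`-regular incidence graph of a `(v, 7, λ)` design has gap at most `2 / 7`.
-/

namespace Pool.Agent.Results.MP_2920eb_co.RegularSeven

open Pool.Agent.H17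

theorem result :
    ¬ PlaneExists 6 ∧
    gapRegular 7 = √5 / 7 ∧
    (∃ (V : Type) (_ : Fintype V) (G : SimpleGraph V), InRegular 7 G ∧ gap G = √5 / 7) ∧
    (∀ (V : Type) [Fintype V] (G : SimpleGraph V),
      InRegular 7 G → IsDesignIncidenceGraph 7 G → gap G ≤ 2 / 7) := by
  have hex : InRegular 7 (incidenceGraph Ex.I) := Ex.mem_regular
  have hgap : gap (incidenceGraph Ex.I) = √5 / 7 :=
    le_antisymm (gap_le_of_regular_seven _ hex) Ex.gap_ge
  refine ⟨not_plane_six, ?_, ⟨Ex.H ⊕ Ex.H, inferInstance, incidenceGraph Ex.I, hex, hgap⟩, ?_⟩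
  · refine IsGreatest.csSup_eq ⟨⟨Ex.H ⊕ Ex.H, inferInstance, incidenceGraph Ex.I, hex, hgap.symm⟩, ?_⟩
    rintro g ⟨V, _, G, hG, rfl⟩
    exact gap_le_of_regular_seven G hG
  · intro V _ G hG hdes
    obtain ⟨P, B, hP, hB, I, v, lam, hD, ⟨e⟩⟩ := hdes
    have hiso : gap G = gap (incidenceGraph I) := gap_iso G _ e
    have hGI : InRegular 7 (incidenceGraph I) := InRegular.iso e hG
    rw [hiso]
    rcases design_main (by norm_num) hD hGI.inMinDegree with h0 | ⟨hPB, hr, hlam, hcount, hdv, hlamd, hgap'⟩
    · exact h0.trans (by norm_num)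
    · have hl1 : lam ≠ 1 := by
        rintro rfl
        exact not_plane_six (plane_of_design (by norm_num) hD hPB hr (by rw [hcount, one_mul]) hdv)
      have hl2 : lam ≠ 2 := by
        rintro rfl
        have hv : v = 22 := by omega
        subst hv
        exact no_biplane_seven hD hPB hr
      have hl3 : 3 ≤ lam := by omega
      have hl3' : (3 : ℝ) ≤ lam := by exact_mod_cast hl3
      refine hgap'.trans ?_
      have h1 : √(((7 : ℕ) : ℝ) - lam) ≤ 2 := by
        rw [show (2 : ℝ) = √4 by
          rw [show (4 : ℝ) = 2 ^ 2 by norm_num, Real.sqrt_sq (by norm_num)]]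
        apply Real.sqrt_le_sqrt
        push_cast
        linarith
      push_cast at h1 ⊢
      exact div_le_div_of_nonneg_right h1 (by norm_num)

end Pool.Agent.Results.MP_2920eb_co.RegularSeven
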