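import Mathlib
import Pool.Agent.H15.GP.Fin
import Pool.Agent.H15.GP.InfC

/-!
# The bound `√(d-2)/d` is not attained for infinitely many `d` without a plane of order `d - 1`

`Crit d`: `d ≡ 15 (mod 16)`, every prime factor of `K₁ = (d² - d + 2)/4` is `≡ 1 (mod 4)`, and `d - 2 + 4 K₁/q` is not a square for any divisor `q > 1` of `K₁`.
For such a `d` there is no projective plane of order `d - 1` and every connected `d`-regular graph has gap at most `√(d - 2 - 1/100)/d`.
Infinitely many `d` satisfy `Crit` (`d = 15` is the smallest).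
-/

namespace Pool.Agent.Results.MP_2920eb_co.SharpBoundFails

open Pool.Agent.H17 Pool.Agent.H15.GP

theorem result :
    (∀ d : ℕ, Crit d → ¬ PlaneExists (d - 1) ∧
      (∀ (V : Type) [Fintype V] (G : SimpleGraph V), InRegular d G → gap G ≤ √((d : ℝ) - 2 - 1 / 100) / d) ∧
      gapRegular d ≤ √((d : ℝ) - 2 - 1 / 100) / d ∧ gapRegular d < √((d : ℝ) - 2) / d) ∧
    Crit 15 ∧ {d : ℕ | Crit d}.Infinite := by
  refine ⟨fun d h => ⟨no_plane h, fun V _ G hG => gap_le_of_crit h G hG, gapRegular_le h, ?_⟩, crit15, crit_infinite⟩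
  have hd : (15 : ℝ) ≤ d := by exact_mod_cast h.ge
  refine lt_of_le_of_lt (gapRegular_le h) ?_
  exact div_lt_div_of_pos_right (Real.sqrt_lt_sqrt (by linarith) (by linarith)) (by linarith)

end Pool.Agent.Results.MP_2920eb_co.SharpBoundFails
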